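import Mathlib
import Pool.Agent.N381.UQ.Asym

/-!
H2xUB (helper2, MP_0430e4_lc): characters on balls of binary words, low and high frequencies.
-/

set_option autoImplicit false
set_option linter.unusedSectionVars false

namespace Pool.Agent.H2xUB

open Finset Matrix Polynomial Pool.Agent.N381.UQ

variable {F : Type} [Field F] [Fintype F] [DecidableEq F]

variable {n : ℕ}

lemma q1_two (hF : Fintype.card F = 2) : q1 F = 1 := by
  unfold q1
  rw [hF]
  norm_num

/-- the low and the high frequencies -/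
def Lo2 (F : Type) [Field F] [Fintype F] [DecidableEq F] (n j : ℕ) : Finset (Fin n → F) :=
  univ.filter fun x => hammingNorm x < j ∨ n < hammingNorm x + j

lemma mem_Lo2 {j : ℕ} {x : Fin n → F} :
    x ∈ Lo2 F n j ↔ hammingNorm x < j ∨ n < hammingNorm x + j := by
  unfold Lo2
  simp

lemma Lo2_smul {j : ℕ} (t : F) (ht : t ≠ 0) (x : Fin n → F) (hx : x ∈ Lo2 F n j) :
    t • x ∈ Lo2 F n j := by
  rw [mem_Lo2, norm_smul' ht]
  exact mem_Lo2.1 hx

lemma gen_high (r : ℝ) : ∑ x : Fin n → F, r ^ (n - hammingNorm x) = (r + q1 F) ^ n := by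
  have h1 : ∀ x : Fin n → F, r ^ (n - hammingNorm x) = ∏ i, (if x i ≠ 0 then 1 else r) := by
    intro x
    rw [prod_split, one_pow, one_mul]
  simp_rw [h1]
  rw [sum_prod_cube fun _ a => if a ≠ 0 then 1 else r]
  rw [Finset.prod_congr rfl fun i _ => sum_if 1 r, Finset.prod_const, Finset.card_univ,
    Fintype.card_fin, mul_one]
  rfl

lemma card_Lo2_le (hF : Fintype.card F = 2) {r : ℝ} (hr : 0 < r) (hr1 : r ≤ 1) (j : ℕ) :
    ((Lo2 F n j).card : ℝ) ≤ 2 * VV (q1 F) n j r := by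
  have h1 : Lo2 F n j ⊆ Bd F n j ∪ univ.filter (fun x : Fin n → F => n < hammingNorm x + j) := by
    intro x hx
    rcases mem_Lo2.1 hx with h | h
    · exact Finset.mem_union_left _ (mem_Bd.2 h)
    · exact Finset.mem_union_right _ (Finset.mem_filter.2 ⟨Finset.mem_univ _, h⟩)
  have h2 : ((univ.filter (fun x : Fin n → F => n < hammingNorm x + j)).card : ℝ) ≤
      VV (q1 F) n j r := by
    unfold VV
    have e0 : (1 + q1 F * r) ^ n = (r + q1 F) ^ n := by
      rw [q1_two hF]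
      congr 1
      ring
    rw [e0, le_div_iff₀ (by positivity), ← gen_high, ← nsmul_eq_mul, ← Finset.sum_const]
    refine (Finset.sum_le_sum fun x hx => ?_).trans
      (Finset.sum_le_sum_of_subset_of_nonneg (Finset.subset_univ _) fun x _ _ => by positivity)
    refine pow_le_pow_of_le_one hr.le hr1 ?_
    have := (Finset.mem_filter.1 hx).2
    omega
  have h3 := card_Bd_le (F := F) (n := n) hr hr1 j
  have h4 : ((Lo2 F n j).card : ℝ) ≤ (Bd F n j).card +
      (univ.filter (fun x : Fin n → F => n < hammingNorm x + j)).card := by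
    exact_mod_cast (Finset.card_le_card h1).trans (Finset.card_union_le _ _)
  linarith

/-- bounds for the character sums from a dominating polynomial -/
lemma ball_dom {r : ℝ} (hr : 0 < r) (hr1 : r ≤ 1) (d : ℕ) (y : Fin n → F) (qq : ℝ[X])
    (hdom : Dom (wp y) qq) : ‖∑ x ∈ Bd F n d, sg (x ⬝ᵥ y)‖ * r ^ d ≤ qq.eval r := by
  have hnn : ∀ w, 0 ≤ qq.coeff w := fun w => (norm_nonneg _).trans (hdom w)
  have h3 : ‖∑ x ∈ Bd F n d, sg (x ⬝ᵥ y)‖ ≤ ∑ w ∈ range d, qq.coeff w := by
    rw [Pool.Agent.N381.UQ.ball_eq]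
    exact (norm_sum_le _ _).trans (Finset.sum_le_sum fun w _ => hdom w)
  have h4 : (∑ w ∈ range d, qq.coeff w) * r ^ d ≤ qq.eval r := by
    rw [eval_eq_sum_range' (lt_of_lt_of_le (Nat.lt_succ_self _) (le_max_left _ d) :
      qq.natDegree < max (qq.natDegree + 1) d), Finset.sum_mul]
    refine (Finset.sum_le_sum fun w hw => ?_).trans (Finset.sum_le_sum_of_subset_of_nonneg
      (s := range d) (f := fun w => qq.coeff w * r ^ w) ?_ fun w _ _ => ?_)
    · refine mul_le_mul_of_nonneg_left ?_ (hnn w)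
      exact pow_le_pow_of_le_one hr.le hr1 (Finset.mem_range.1 hw).le
    · intro w hw
      exact Finset.mem_range.2 (lt_of_lt_of_le (Finset.mem_range.1 hw) (le_max_right _ _))
    · exact mul_nonneg (hnn w) (by positivity)
  exact (mul_le_mul_of_nonneg_right h3 (by positivity)).trans h4

lemma dom_minus2 : Dom (1 - X ^ 2) (1 + X ^ 2) := by
  intro w
  rw [coeff_sub, coeff_add, coeff_one, coeff_one, coeff_X_pow, coeff_X_pow]
  by_cases h1 : w = 0
  · subst h1
    simp
  · by_cases h2 : w = 2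
    · subst h2
      simp
    · rw [if_neg h1, if_neg h1, if_neg h2, if_neg h2]
      simp

lemma dom_one_plus : Dom (1 + X) (1 + X) := by
  have h := dom_plus (Q := 1) zero_le_one
  simpa using h

/-- the characters with frequencies which are neither low nor high -/
lemma ball_le2 (hF : Fintype.card F = 2) {r : ℝ} (hr : 0 < r) (hr1 : r ≤ 1) (d m : ℕ)
    (y : Fin n → F) (h1 : m ≤ hammingNorm y) (h2 : hammingNorm y + m ≤ n) :
    ‖∑ x ∈ Bd F n d, sg (x ⬝ᵥ y)‖ ≤
      VV (q1 F) n d r * ((1 + r ^ 2) / (1 + r) ^ 2) ^ m := by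
  obtain ⟨a, ha⟩ : ∃ a, hammingNorm y = m + a := ⟨hammingNorm y - m, by omega⟩
  obtain ⟨b, hb⟩ : ∃ b, n = m + a + m + b := ⟨n - (m + a + m), by omega⟩
  obtain ⟨qq, hqq⟩ : ∃ qq : ℝ[X], qq = (1 + X ^ 2) ^ m * ((1 + X) ^ a * (1 + X) ^ b) := ⟨_, rfl⟩
  have hdom : Dom (wp y) qq := by
    have e1 : wp y = (1 - X ^ 2) ^ m * ((1 - X) ^ a * (1 + X) ^ b) := by
      rw [wp_eq, q1_two hF, ha]
      have e2 : n - (m + a) = m + b := by omega
      rw [e2]
      have e3 : (1 - X ^ 2 : ℂ[X]) = (1 - X) * (1 + X) := by ring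
      have e4 : (1 + C ((1 : ℝ) : ℂ) * X : ℂ[X]) = 1 + X := by simp
      rw [e3, e4, mul_pow, pow_add, pow_add]
      ring
    rw [e1, hqq]
    exact (dom_minus2.pow _).mul ((dom_minus.pow _).mul (dom_one_plus.pow _))
  have h3 := ball_dom hr hr1 d y qq hdom
  have h5 : qq.eval r = (1 + r ^ 2) ^ m * ((1 + r) ^ a * (1 + r) ^ b) := by
    rw [hqq]
    simp
  rw [h5] at h3
  have h6 : VV (q1 F) n d r * ((1 + r ^ 2) / (1 + r) ^ 2) ^ m =
      (1 + r ^ 2) ^ m * ((1 + r) ^ a * (1 + r) ^ b) / r ^ d := by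
    unfold VV
    rw [q1_two hF, one_mul, div_pow, ← pow_mul]
    have e1 : (1 + r) ^ n = (1 + r) ^ (2 * m) * ((1 + r) ^ a * (1 + r) ^ b) := by
      rw [← pow_add, ← pow_add]
      congr 1
      omega
    rw [e1]
    have : (0 : ℝ) < 1 + r := by positivity
    field_simp
  rw [h6, le_div_iff₀ (by positivity)]
  exact h3

end Pool.Agent.H2xUB
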