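import Mathlib
import Pool.Agent.H2xUB.Gen2

/-!
H2xUB (helper2, MP_0430e4_lc): the data for balls of binary words.
-/

set_option autoImplicit false
set_option linter.unusedSectionVars false

namespace Pool.Agent.H2xUB

open Finset Matrix Pool.Agent.N381.UQ

variable {F : Type} [Field F] [Fintype F] [DecidableEq F]

variable {n d j₀ j₁ : ℕ}

/-- **The data for balls.** -/
lemma mkDat2 (hF2 : Fintype.card F = 2) {q y z Z v V1 : ℝ} (hq : 0 < q) (hq1 : q ≤ 1)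
    (hy : 0 < y) (hy1 : y ≤ 1) (hz : 0 < z)
    (hz1 : z ≤ 1) (hV : V1 = VV (q1 F) n d (q ^ 2)) (hj : 1 ≤ j₁) (hjd : j₁ ≤ d) (hv0 : 0 < v)
    (hv1 : v ≤ 1) (hZ : 2 * VV (q1 F) n j₀ y ≤ Z) (hvZ : 1 ≤ v * Z)
    (hPZ : V1 / (Fintype.card F : ℝ) ^ n * Z ^ 40 ≤ 1)
    (hfh : ((1 + (q ^ 2) ^ 2) / (1 + q ^ 2) ^ 2) ^ j₀ +
      2 * VV (q1 F) n j₀ y * (V1 / (Fintype.card F : ℝ) ^ n) ≤ v ^ 3)
    (hcT : VV (q1 F) n j₁ z * Z ^ 40 ≤ V1)
    (hsh : ((2 * q + (q1 F - 1) * q ^ 2) / (1 + q1 F * q ^ 2)) ^ j₁ ≤ v) :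
    Dat n (V1 / (Fintype.card F : ℝ) ^ n) Z v (ff (Bd F n d) (Lo2 F n j₀)) (Bd F n d)
      (Bd F n j₁) (Lo2 F n j₀) := by
  classical
  have hF := card_F_pos (F := F)
  have hQ := q1_pos (F := F)
  have hQ1 := q1_one (F := F)
  have hr : 0 < q ^ 2 := by positivity
  have hr1 : q ^ 2 ≤ 1 := pow_le_one₀ hq.le hq1
  have hV1 : 1 ≤ V1 := hV ▸ one_le_VV hQ hr hr1 d
  have hV0 : 0 < V1 := by linarith
  have hd : 1 ≤ d := hj.trans hjd
  obtain ⟨P1, hP1⟩ : ∃ P1, P1 = 2 * VV (q1 F) n j₀ y := ⟨_, rfl⟩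
  have hP11 : 1 ≤ P1 := by
    have := one_le_VV (n := n) hQ hy hy1 j₀
    rw [hP1]
    linarith
  rw [← hP1] at hZ hfh
  have hZ1 : 1 ≤ Z := by linarith
  have hZ0 : 0 < Z := by linarith
  have hn0 : (0 : ℝ) < (Fintype.card F : ℝ) ^ n := by positivity
  obtain ⟨P, hP⟩ : ∃ P, P = V1 / (Fintype.card F : ℝ) ^ n := ⟨_, rfl⟩
  rw [← hP] at hPZ hfh ⊢
  have hP0 : 0 < P := by rw [hP]; positivity
  have hPV : P * (Fintype.card F : ℝ) ^ n = V1 := by rw [hP]; field_simp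
  have hB : av (ind (Bd F n d)) ≤ P := by
    rw [hP, hV]
    exact av_ind_Bd d hr hr1
  have hLo : ((Lo2 F n j₀).card : ℝ) ≤ P1 := hP1 ▸ card_Lo2_le hF2 hy hy1 j₀
  have hη : ∀ x : Fin n → F, x ∉ Bd F n d → |ff (Bd F n d) (Lo2 F n j₀) x| ≤ P * Z := by
    intro x hx
    refine (ff_out hB hx).trans ?_
    rw [mul_comm]
    exact mul_le_mul_of_nonneg_left (hLo.trans hZ) hP0.le
  have hPZ1 : P * Z ≤ 1 := by
    refine le_trans ?_ hPZ
    exact mul_le_mul_of_nonneg_left (le_self_pow₀ hZ1 (by norm_num)) hP0.le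
  obtain ⟨ρj, hρj⟩ : ∃ ρj, ρj = ((1 + (q ^ 2) ^ 2) / (1 + q ^ 2) ^ 2) ^ j₀ := ⟨_, rfl⟩
  have hρ0 : 0 ≤ ρj := by rw [hρj]; positivity
  rw [← hρj] at hfh
  have hbh : ∀ c : Fin n → F, c ∉ Lo2 F n j₀ → ‖hatr (ind (Bd F n d)) c‖ ≤ P * ρj := by
    intro c hc
    have h1 : hatr (ind (Bd F n d)) c =
        (∑ x ∈ Bd F n d, sg (x ⬝ᵥ c)) / ((Fintype.card F : ℂ) ^ n) := by
      unfold hatr hatv av
      congr 1
      · have h2 : ∀ x : Fin n → F, (ind (Bd F n d) x : ℂ) * sg (x ⬝ᵥ c) =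
            if x ∈ Bd F n d then sg (x ⬝ᵥ c) else 0 := by
          intro x
          unfold ind
          split_ifs <;> simp
        rw [Finset.sum_congr rfl fun x _ => h2 x, Finset.sum_ite_mem, Finset.univ_inter]
      · rw [Fintype.card_fun, Fintype.card_fin]
        push_cast
        rfl
    rw [h1, norm_div, norm_pow, RCLike.norm_natCast, div_le_iff₀ hn0]
    have h3 : j₀ ≤ hammingNorm c := by
      by_contra h
      exact hc (mem_Lo2.2 (Or.inl (by omega)))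
    have h4 : hammingNorm c + j₀ ≤ n := by
      by_contra h
      exact hc (mem_Lo2.2 (Or.inr (by omega)))
    refine (ball_le2 hF2 hr hr1 d j₀ c h3 h4).trans (le_of_eq ?_)
    rw [← hV, ← hρj, ← hPV]
    ring
  refine ⟨hP0, hv0, hv1, hZ1, hvZ, hPZ, ?_, ?_, fun x hx => ff_in hx, ?_, hη, ?_, hB, ?_, ?_,
    hLo.trans hZ, ?_, Bd_smul, Bd_smul, fun t ht x => ff_smul Bd_smul Lo2_smul ht x⟩
  · rw [mem_Bd, hammingNorm_zero]
    omega
  · intro x hx
    exact mem_Bd.2 (lt_of_lt_of_le (mem_Bd.1 hx) hjd)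
  · intro x
    by_cases hx : x ∈ Bd F n d
    · rw [ff_in hx, abs_one]
    · exact (hη x hx).trans hPZ1
  · intro c
    refine (ff_hat hB Bd_smul Lo2_smul (a := P * ρj) (by positivity) hbh c).trans ?_
    calc P * ρj + (Lo2 F n j₀).card * P * P ≤ P * ρj + P1 * P * P := by gcongr
      _ = P * (ρj + P1 * P) := by ring
      _ ≤ P * v ^ 3 := mul_le_mul_of_nonneg_left hfh hP0.le
  · refine (av_ind_Bd j₁ hz hz1).trans ?_
    rw [hP, div_div, div_le_div_iff₀ (by positivity) (by positivity)]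
    calc VV (q1 F) n j₁ z * ((Fintype.card F : ℝ) ^ n * Z ^ 40) =
        VV (q1 F) n j₁ z * Z ^ 40 * (Fintype.card F : ℝ) ^ n := by ring
      _ ≤ V1 * (Fintype.card F : ℝ) ^ n := mul_le_mul_of_nonneg_right hcT hn0.le
  · intro w hw
    have h1 : j₁ ≤ hammingNorm w := by
      by_contra h
      exact hw (mem_Bd.2 (by omega))
    have h2 : (av fun x => ind (Bd F n d) x * ind (Bd F n d) (x + w)) =
        ((univ.filter fun x : Fin n → F => x ∈ Bd F n d ∧ x + w ∈ Bd F n d).card : ℝ) /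
          (Fintype.card F : ℝ) ^ n := by
      unfold av
      rw [card_cube, ← Finset.sum_boole]
      congr 1
      refine Finset.sum_congr rfl fun x _ => ?_
      show (if x ∈ Bd F n d then (1 : ℝ) else 0) * (if x + w ∈ Bd F n d then (1 : ℝ) else 0) = _
      by_cases a1 : x ∈ Bd F n d
      · by_cases a2 : x + w ∈ Bd F n d
        · rw [if_pos a1, if_pos a2, if_pos ⟨a1, a2⟩, mul_one]
        · rw [if_neg a2, mul_zero,
            if_neg (show ¬ (x ∈ Bd F n d ∧ x + w ∈ Bd F n d) from fun h => a2 h.2)]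
      · rw [if_neg a1, zero_mul,
          if_neg (show ¬ (x ∈ Bd F n d ∧ x + w ∈ Bd F n d) from fun h => a1 h.1)]
    rw [h2, div_le_iff₀ hn0]
    have hq1F : 0 ≤ q1 F - 1 := by linarith
    have hθ0 : 0 ≤ (2 * q + (q1 F - 1) * q ^ 2) / (1 + q1 F * q ^ 2) := by positivity
    have hθ1 : (2 * q + (q1 F - 1) * q ^ 2) / (1 + q1 F * q ^ 2) ≤ 1 := by
      rw [div_le_one (by positivity)]
      nlinarith [sq_nonneg (1 - q)]
    calc ((univ.filter fun x : Fin n → F => x ∈ Bd F n d ∧ x + w ∈ Bd F n d).card : ℝ) ≤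
        VV (q1 F) n d (q ^ 2) *
          ((2 * q + (q1 F - 1) * q ^ 2) / (1 + q1 F * q ^ 2)) ^ hammingNorm w :=
            inter_le hq hq1 d w
      _ ≤ V1 * v := by
        rw [← hV]
        exact mul_le_mul_of_nonneg_left ((pow_le_pow_of_le_one hθ0 hθ1 h1).trans hsh) hV0.le
      _ = P * v * (Fintype.card F : ℝ) ^ n := by rw [← hPV]; ring
  · intro c hc
    refine (hbh c hc).trans (mul_le_mul_of_nonneg_left ?_ hP0.le)
    have : 0 ≤ P1 * P := by positivity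
    linarith

lemma ff_eta2 (hF2 : Fintype.card F = 2) {l : ℕ} {q y Z V1 : ℝ} (hq : 0 < q) (hq1 : q ≤ 1)
    (hy : 0 < y) (hy1 : y ≤ 1)
    (hV : V1 = VV (q1 F) n d (q ^ 2)) (hZ : 2 * VV (q1 F) n j₀ y * (Fintype.card F : ℝ) ^ l ≤ Z)
    (x : Fin n → F) (hx : x ∉ Bd F n d) :
    |ff (Bd F n d) (Lo2 F n j₀) x| ≤
      V1 / (Fintype.card F : ℝ) ^ n * Z / (Fintype.card F : ℝ) ^ l := by
  have hN := card_F_pos (F := F)
  have hr : 0 < q ^ 2 := by positivity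
  have hr1 : q ^ 2 ≤ 1 := pow_le_one₀ hq.le hq1
  have hV1 : 1 ≤ V1 := hV ▸ one_le_VV q1_pos hr hr1 d
  have hB := card_Lo2_le (n := n) hF2 hy hy1 j₀
  have hP : av (ind (Bd F n d)) ≤ V1 / (Fintype.card F : ℝ) ^ n := by
    rw [hV]
    exact av_ind_Bd d hr hr1
  refine (ff_out hP hx).trans ?_
  rw [le_div_iff₀ (by positivity)]
  calc (Lo2 F n j₀).card * (V1 / (Fintype.card F : ℝ) ^ n) * (Fintype.card F : ℝ) ^ l ≤
      2 * VV (q1 F) n j₀ y * (V1 / (Fintype.card F : ℝ) ^ n) * (Fintype.card F : ℝ) ^ l := by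
        refine mul_le_mul_of_nonneg_right ?_ (by positivity)
        exact mul_le_mul_of_nonneg_right hB (by positivity)
    _ = V1 / (Fintype.card F : ℝ) ^ n * (2 * VV (q1 F) n j₀ y * (Fintype.card F : ℝ) ^ l) := by
        ring
    _ ≤ V1 / (Fintype.card F : ℝ) ^ n * Z := mul_le_mul_of_nonneg_left hZ (by positivity)

end Pool.Agent.H2xUB
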